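import Pool.Agent.H75Kh.K6

set_option autoImplicit false

/-!
# Finite `p`-groups with an automorphism of order `p` whose centralizer is central

For every prime `p ≥ 5` and every `n ≥ 2` there is a finite `p`-group of derived length exactly
`n` with an automorphism of order `p` all of whose fixed points are central.  So for no prime
`p ≥ 5` is there a bound `f(p)`.
-/

namespace Pool.Agent.Results.MP_01bd7f_al.EveryPrimeFromFive

/-- `φ` is an automorphism of `G` of order `p` whose fixed points are all central. -/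
def CentralCentralizer {G : Type} [Group G] (p : ℕ) (φ : MulAut G) : Prop :=
  orderOf φ = p ∧ ∀ g : G, φ g = g → g ∈ Subgroup.center G

theorem map_der {G : Type} [Group G] (j k : ℕ) :
    (derivedSeries (derivedSeries G j) k).map (derivedSeries G j).subtype =
      derivedSeries G (j + k) := by
  induction k with
  | zero => rw [derivedSeries_zero, ← MonoidHom.range_eq_map, Subgroup.range_subtype, add_zero]
  | succ k ih => rw [derivedSeries_succ, Subgroup.map_commutator, ih, ← add_assoc, derivedSeries_succ]

theorem exact_part (p : ℕ) (hp : p.Prime) (h5 : 5 ≤ p) (n : ℕ) (hn : 2 ≤ n) :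
    ∃ (G : Type) (_ : Group G) (_ : Finite G), IsPGroup p G ∧
      (∃ φ : MulAut G, CentralCentralizer p φ) ∧
      derivedSeries G n = ⊥ ∧ derivedSeries G (n - 1) ≠ ⊥ := by
  obtain ⟨G, iG, iF, hP, φ, ho, hfix, hd⟩ := Pool.Agent.H75Kh.main p hp h5 n
  have hpf : Fact p.Prime := ⟨hp⟩
  have hnil : Group.IsNilpotent G := hP.isNilpotent
  have hs : Group.IsSolvable G := inferInstance
  have hex : ∃ d, derivedSeries G d = ⊥ := hs.solvable
  classical
  obtain ⟨d, hdd⟩ : ∃ d, d = Nat.find hex := ⟨_, rfl⟩
  have hd0 : derivedSeries G d = ⊥ := hdd ▸ Nat.find_spec hex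
  have hdm : ∀ k < d, derivedSeries G k ≠ ⊥ := fun k hk => Nat.find_min hex (hdd ▸ hk)
  have hnd : n < d := by
    by_contra hc
    apply hd
    have := derivedSeries_antitone G (not_lt.1 hc)
    rw [hd0] at this
    exact le_bot_iff.1 this
  obtain ⟨H, hH⟩ : ∃ H, H = derivedSeries G (d - n) := ⟨_, rfl⟩
  have hmap : ∀ k, (derivedSeries H k).map H.subtype = derivedSeries G (d - n + k) := by
    subst hH
    exact fun k => map_der _ k
  have hbot : ∀ k, derivedSeries H k = ⊥ ↔ derivedSeries G (d - n + k) = ⊥ := by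
    intro k
    rw [← hmap k, Subgroup.map_eq_bot_iff_of_injective _ H.subtype_injective]
  have hchar : H.Characteristic := by
    rw [hH]; exact derivedSeries_characteristic G _
  have hmem : ∀ (ψ : MulAut G) (g : G), g ∈ H → ψ g ∈ H := by
    intro ψ g hg
    have h := Subgroup.characteristic_iff_map_le.1 hchar ψ
    exact h ⟨g, hg, rfl⟩
  let φH : MulAut H :=
    { toFun := fun g => ⟨φ g, hmem φ g g.2⟩
      invFun := fun g => ⟨φ⁻¹ (g : G), hmem φ⁻¹ g g.2⟩
      left_inv := fun g => Subtype.ext (MulAut.inv_apply_self G φ g)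
      right_inv := fun g => Subtype.ext (MulAut.apply_inv_self G φ g)
      map_mul' := fun x y => Subtype.ext (map_mul φ (x : G) (y : G)) }
  have hφH : ∀ g : H, ((φH g : H) : G) = φ g := fun _ => rfl
  have hpow : ∀ (k : ℕ) (g : H), (((φH ^ k) g : H) : G) = (φ ^ k) g := by
    intro k
    induction k with
    | zero => intro g; rfl
    | succ k ih =>
      intro g
      rw [pow_succ', pow_succ', MulAut.mul_apply, MulAut.mul_apply, hφH, ih]
  refine ⟨H, inferInstance, inferInstance, hP.to_subgroup H, ⟨φH, ?_, ?_⟩, ?_, ?_⟩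
  · refine orderOf_eq_prime ?_ fun h => ?_
    · ext g
      rw [hpow, ← ho, pow_orderOf_eq_one]
      rfl
    · have hc : ∀ g ∈ H, g ∈ Subgroup.center G := by
        intro g hg
        apply hfix
        rw [← hφH ⟨g, hg⟩, h]
        rfl
      have hcH : Subgroup.center H = ⊤ := by
        rw [Subgroup.eq_top_iff']
        intro g
        rw [Subgroup.mem_center_iff]
        intro x
        apply Subtype.ext
        exact Subgroup.mem_center_iff.1 (hc g g.2) x
      have h2 : derivedSeries H 1 = ⊥ := by
        rw [derivedSeries_one]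
        exact (commutator_eq_bot_iff_center_eq_top H).2 hcH
      rw [hbot] at h2
      exact hdm _ (by omega) h2
  · intro g hg
    have h1 := hfix g (by rw [← hφH, hg])
    rw [Subgroup.mem_center_iff]
    intro x
    apply Subtype.ext
    exact Subgroup.mem_center_iff.1 h1 x
  · rw [hbot, Nat.sub_add_cancel hnd.le]
    exact hd0
  · rw [Ne, hbot]
    exact hdm _ (by omega)

/-- For every prime `p ≥ 5`: the finite `p`-groups with an automorphism of order `p` with central
centralizer have every derived length `n ≥ 2`, and there is a non-soluble product of such groups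
with an automorphism of order `p` with central centralizer. -/
theorem result (p : ℕ) (hp : p.Prime) (h5 : 5 ≤ p) :
    (∀ n : ℕ, 2 ≤ n → ∃ (G : Type) (_ : Group G) (_ : Finite G), IsPGroup p G ∧
      (∃ φ : MulAut G, CentralCentralizer p φ) ∧
      derivedSeries G n = ⊥ ∧ derivedSeries G (n - 1) ≠ ⊥) ∧
    ∃ (G : ℕ → Type) (_ : ∀ n, Group (G n)), (∀ n, Finite (G n) ∧ IsPGroup p (G n)) ∧
      ¬ Group.IsSolvable (∀ n, G n) ∧ ∃ φ : MulAut (∀ n, G n), CentralCentralizer p φ := by
  refine ⟨exact_part p hp h5, ?_⟩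
  have fin : ∀ n : ℕ, ∃ (G : Type) (_ : Group G) (_ : Finite G), IsPGroup p G ∧
      (∃ φ : MulAut G, CentralCentralizer p φ) ∧ derivedSeries G n ≠ ⊥ := by
    intro n
    obtain ⟨G, iG, iF, hP, φ, ho, hfix, hd⟩ := Pool.Agent.H75Kh.main p hp h5 n
    exact ⟨G, iG, iF, hP, ⟨φ, ho, hfix⟩, hd⟩
  choose G iG iF hP hφ hd using fin
  choose φ ho hfix using hφ
  refine ⟨G, iG, fun n => ⟨iF n, hP n⟩, ?_, MulEquiv.piCongrRight φ, ?_, ?_⟩
  · rintro ⟨n, hn⟩
    refine hd n ?_
    have hs : Function.Surjective (Pi.evalMonoidHom G n) := Function.surjective_eval n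
    have := map_derivedSeries_eq (f := Pi.evalMonoidHom G n) hs n
    rw [← this, hn, Subgroup.map_bot]
  · have : Fact (Nat.Prime p) := ⟨hp⟩
    have h5' : ∀ n, (φ n) ^ p = 1 := fun n => ho n ▸ pow_orderOf_eq_one (φ n)
    refine orderOf_eq_prime ?_ fun h => ?_
    · ext g n
      have e : ∀ k : ℕ, ((MulEquiv.piCongrRight φ : MulAut (∀ n, G n)) ^ k) g n =
          ((φ n) ^ k) (g n) := fun k => by
        induction k with
        | zero => rfl
        | succ k ih =>
          rw [pow_succ', pow_succ', MulAut.mul_apply, MulAut.mul_apply]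
          show φ n (((MulEquiv.piCongrRight φ : MulAut (∀ n, G n)) ^ k) g n) = _
          rw [ih]
      rw [e, h5']; rfl
    · have h1 : φ 0 = 1 := by
        ext x
        classical
        have := congrFun (congrArg (fun ψ : MulAut (∀ n, G n) => ψ (Pi.mulSingle 0 x)) h) 0
        have h2 : φ 0 ((Pi.mulSingle 0 x : ∀ n, G n) 0) = (Pi.mulSingle 0 x : ∀ n, G n) 0 := this
        rw [Pi.mulSingle_eq_same] at h2
        exact h2
      have := ho 0
      rw [h1, orderOf_one] at this
      omega
  · intro g hg
    rw [Subgroup.mem_center_iff]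
    intro h
    funext n
    have h1 : φ n (g n) = g n := congrFun hg n
    exact Subgroup.mem_center_iff.1 (hfix n _ h1) (h n)

end Pool.Agent.Results.MP_01bd7f_al.EveryPrimeFromFive
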